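import Pool.Agent.H.MP_52c726_an.C

set_option autoImplicit false

namespace Pool.Agent.Results.MP_52c726_an.No

open Pool.Agent.H.MP_52c726_an

theorem result (𝕜 : Type) [RCLike 𝕜] :
    ∃ (X : Type) (_ : NormedAddCommGroup X) (_ : NormedSpace 𝕜 X), CompleteSpace X ∧ SCP 𝕜 X ∧
      ∃ W : Submodule 𝕜 X, IsClosed (W : Set X) ∧
        ∀ V : Submodule 𝕜 X, W ≤ V → V.ClosedComplemented → dens V ≠ dens W := by
  obtain ⟨K, h0, h1, h2, h3⟩ := ex_K (Cardinal.mk 𝕜)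
  refine ⟨sp 𝕜 (Set.univ : Set (Gn K)), inferInstance, inferInstance,
    (sp_closed _).completeSpace_coe, scp, (sp 𝕜 (Set.range Sum.inl)).comap (Submodule.subtype _),
    (sp_closed _).preimage continuous_subtype_val, fun V hV ⟨f, hf⟩ e => ?_⟩
  obtain ⟨s, hs, hc⟩ : ∃ s : Set V, Dense s ∧ Cardinal.mk s = dens V :=
    csInf_mem (s := {c | ∃ s : Set V, Dense s ∧ Cardinal.mk s = c}) ⟨_, Set.univ, dense_univ, rfl⟩
  obtain ⟨x, hx⟩ := big h1 h3 (fun i : s => i.1.1.1) (fun i => i.1.1.2)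
    (hc.trans_le (e.trans_le (dens_W h0 h2)))
  refine nosplit (V.subtypeL.comp f) (fun u hu => congrArg Subtype.val (hf ⟨u, hV hu⟩)) x
    fun u δ => hs.induction (P := fun v => v.1.1 (.inr (δ, {x})) = 0)
      (fun v hv => hx ⟨v, hv⟩ δ) (isClosed_eq ?_ continuous_const) (f u)
  exact (lp.evalCLM 𝕜 _ ⊤ _).continuous.comp (continuous_subtype_val.comp continuous_subtype_val)

end Pool.Agent.Results.MP_52c726_an.No
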